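import Mathlib

/-!
# Nondegenerate closed curves

The step from dimension `d` to dimension `d + 2`, and existence in every dimension `≥ 2`.
-/

open scoped RealInnerProductSpace ContDiff
open MeasureTheory

namespace Pool.Agent.Q140.ND

/-- Euclidean `n`-space. -/
abbrev E (n : ℕ) : Type := EuclideanSpace ℝ (Fin n)

/-- The vectors `γ', γ'', ..., γ^(n)` are linearly independent at every parameter. -/
def Nondeg {n : ℕ} (γ : ℝ → E n) : Prop :=
  ∀ t, LinearIndependent ℝ (fun i : Fin n => iteratedDeriv ((i : ℕ) + 1) γ t)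

theorem iteratedDeriv_clm {V W : Type*} [NormedAddCommGroup V] [NormedSpace ℝ V]
    [NormedAddCommGroup W] [NormedSpace ℝ W] (L : V →L[ℝ] W) {γ : ℝ → V}
    (h : ContDiff ℝ ∞ γ) (j : ℕ) :
    iteratedDeriv j (fun t => L (γ t)) = fun t => L (iteratedDeriv j γ t) := by
  induction j with
  | zero => simp
  | succ j ih =>
    rw [iteratedDeriv_succ, ih, iteratedDeriv_succ]
    funext t
    have hd : DifferentiableAt ℝ (iteratedDeriv j γ) t :=
      (h.differentiable_iteratedDeriv j (by exact_mod_cast WithTop.coe_lt_top j)) t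
    exact (L.hasFDerivAt.comp_hasDerivAt t hd.hasDerivAt).deriv

theorem smooth_iteratedDeriv {V : Type*} [NormedAddCommGroup V] [NormedSpace ℝ V]
    {γ : ℝ → V} (h : ContDiff ℝ ∞ γ) (j : ℕ) : ContDiff ℝ ∞ (iteratedDeriv j γ) := by
  induction j with
  | zero => simpa using h
  | succ j ih =>
    rw [iteratedDeriv_succ]
    exact (contDiff_infty_iff_deriv.1 ih).2

/-- Linear independence of `n` vectors in `E n` in terms of inner products. -/
theorem linInd_iff {n : ℕ} (v : Fin n → E n) :
    LinearIndependent ℝ v ↔ ∀ w : E n, (∀ i, ⟪w, v i⟫ = 0) → w = 0 := by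
  constructor
  · intro h w hw
    have hspan : Submodule.span ℝ (Set.range v) = ⊤ := by
      apply Submodule.eq_top_of_finrank_eq
      rw [finrank_span_eq_card h]
      simp
    have : w ∈ (⊤ : Submodule ℝ (E n))ᗮ := by
      rw [← hspan, Submodule.mem_orthogonal']
      intro u hu
      induction hu using Submodule.span_induction with
      | mem x hx => obtain ⟨i, rfl⟩ := hx; exact hw i
      | zero => simp
      | add x y _ _ hx hy => rw [inner_add_right, hx, hy, add_zero]
      | smul a x _ hx => rw [inner_smul_right, hx, mul_zero]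
    simpa using this
  · intro h
    apply linearIndependent_of_top_le_span_of_card_eq_finrank
    · rw [top_le_iff, ← Submodule.orthogonal_eq_bot_iff, Submodule.eq_bot_iff]
      intro w hw
      apply h
      intro i
      exact (Submodule.mem_orthogonal' _ _).1 hw _ (Submodule.subset_span ⟨i, rfl⟩)
    · simp

theorem nondeg_iff {n : ℕ} {γ : ℝ → E n} :
    Nondeg γ ↔ ∀ t, ∀ w : E n,
      (∀ i : ℕ, i < n → ⟪w, iteratedDeriv (i + 1) γ t⟫ = 0) → w = 0 := by
  unfold Nondeg
  simp only [linInd_iff]
  constructor
  · intro h t w hw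
    exact h t w fun i => hw i i.2
  · intro h t w hw
    exact h t w fun i hi => hw ⟨i, hi⟩

section antiperiodic

variable {V : Type*} [NormedAddCommGroup V] [NormedSpace ℝ V] [CompleteSpace V]

/-- A smooth function with `h (t + π) = - h t` has a smooth primitive with the same property. -/
theorem exists_primitive {h : ℝ → V} (hs : ContDiff ℝ ∞ h)
    (hp : ∀ t, h (t + Real.pi) = - h t) :
    ∃ A : ℝ → V, ContDiff ℝ ∞ A ∧ (∀ t, HasDerivAt A (h t) t) ∧
      ∀ t, A (t + Real.pi) = - A t := by
  set G : ℝ → V := fun t => ∫ τ in (0 : ℝ)..t, h τ with hG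
  have hc : Continuous h := hs.continuous
  have hint : ∀ a b, IntervalIntegrable h volume a b := fun a b => hc.intervalIntegrable a b
  have hGd : ∀ t, HasDerivAt G (h t) t := fun t =>
    intervalIntegral.integral_hasDerivAt_right (hint 0 t)
      (hc.stronglyMeasurableAtFilter _ _) hc.continuousAt
  have hGdiff : ∀ a b, G b - G a = ∫ τ in a..b, h τ := by
    intro a b
    exact intervalIntegral.integral_interval_sub_left (hint 0 b) (hint 0 a)
  set A : ℝ → V := fun t => (1 / 2 : ℝ) • (G t - G (t - Real.pi)) with hA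
  have hAd : ∀ t, HasDerivAt A (h t) t := by
    intro t
    have h1 : HasDerivAt (fun t => G (t - Real.pi)) (h (t - Real.pi)) t := by
      have := (hGd (t - Real.pi)).scomp t ((hasDerivAt_id t).sub_const Real.pi)
      rw [one_smul] at this
      exact this
    have h2 := ((hGd t).sub h1).const_smul (1 / 2 : ℝ)
    have h3 : h t = - h (t - Real.pi) := by
      have := hp (t - Real.pi)
      rwa [sub_add_cancel] at this
    have h4 : (1 / 2 : ℝ) • (h t - h (t - Real.pi)) = h t := by
      have : h (t - Real.pi) = - h t := by rw [h3, neg_neg]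
      rw [this]
      module
    rw [h4] at h2
    exact h2
  refine ⟨A, ?_, hAd, ?_⟩
  · rw [contDiff_infty_iff_deriv]
    refine ⟨fun t => (hAd t).differentiableAt, ?_⟩
    rw [show deriv A = h from funext fun t => (hAd t).deriv]
    exact hs
  · intro t
    simp only [hA, hGdiff]
    rw [← smul_neg]
    congr 1
    rw [← intervalIntegral.integral_neg]
    have : ∫ τ in (t - Real.pi)..t, - h τ = ∫ τ in (t - Real.pi)..t, h (τ + Real.pi) := by
      congr 1; funext τ; rw [hp]
    rw [this, intervalIntegral.integral_comp_add_right]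
    simp

/-- Solution of `u'' + u = g` for a smooth `π`-periodic right-hand side. -/
theorem exists_osc {g : ℝ → V} (hs : ContDiff ℝ ∞ g) (hp : ∀ t, g (t + Real.pi) = g t) :
    ∃ u u' : ℝ → V, ContDiff ℝ ∞ u ∧ (∀ t, HasDerivAt u (u' t) t) ∧
      (∀ t, HasDerivAt u' (g t - u t) t) ∧ ∀ t, u (t + Real.pi) = u t := by
  obtain ⟨A, hA, hAd, hAp⟩ := exists_primitive (h := fun t => Real.cos t • g t)
    (Real.contDiff_cos.smul hs) (fun t => by rw [Real.cos_add_pi, hp, neg_smul])
  obtain ⟨B, hB, hBd, hBp⟩ := exists_primitive (h := fun t => Real.sin t • g t)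
    (Real.contDiff_sin.smul hs) (fun t => by rw [Real.sin_add_pi, hp, neg_smul])
  refine ⟨fun t => Real.sin t • A t - Real.cos t • B t,
    fun t => Real.cos t • A t + Real.sin t • B t, ?_, ?_, ?_, ?_⟩
  · exact (Real.contDiff_sin.smul hA).sub (Real.contDiff_cos.smul hB)
  · intro t
    have h1 := ((Real.hasDerivAt_sin t).smul (hAd t)).sub ((Real.hasDerivAt_cos t).smul (hBd t))
    refine HasDerivAt.congr_deriv h1 ?_
    simp only [smul_smul]
    module
  · intro t
    have h1 := ((Real.hasDerivAt_cos t).smul (hAd t)).add ((Real.hasDerivAt_sin t).smul (hBd t))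
    refine HasDerivAt.congr_deriv h1 ?_
    have h2 := Real.sin_sq_add_cos_sq t
    have h3 : g t = (Real.sin t ^ 2 + Real.cos t ^ 2) • g t := by rw [h2, one_smul]
    rw [show g t - (Real.sin t • A t - Real.cos t • B t) =
      (Real.sin t ^ 2 + Real.cos t ^ 2) • g t - (Real.sin t • A t - Real.cos t • B t) by
        rw [← h3]]
    simp only [smul_smul]
    module
  · intro t
    simp only [Real.sin_add_pi, Real.cos_add_pi, hAp, hBp, neg_smul, smul_neg, neg_neg]

end antiperiodic

end Pool.Agent.Q140.ND
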