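import Pool.Agent.Q140.ND.Exist

/-!
# The number `μ(n)`
-/

open scoped RealInnerProductSpace ContDiff

namespace Pool.Agent.Q140.ND

/-- A smooth closed curve `S¹ = ℝ/2πℤ → ℝⁿ` which is nondegenerate: `γ', γ'', ..., γ^(n)` are
linearly independent at every parameter. -/
structure NondegClosed {n : ℕ} (γ : ℝ → EuclideanSpace ℝ (Fin n)) : Prop where
  smooth : ContDiff ℝ ∞ γ
  closed : ∀ t, γ (t + 2 * Real.pi) = γ t
  nondegenerate : ∀ t, LinearIndependent ℝ (fun i : Fin n => iteratedDeriv ((i : ℕ) + 1) γ t)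

/-- The unit circle of the first coordinate plane of `ℝⁿ`, traversed `m` times. -/
noncomputable def circ (n m : ℕ) (t : ℝ) : EuclideanSpace ℝ (Fin n) :=
  WithLp.toLp 2 fun i => if (i : ℕ) = 0 then Real.cos (m * t)
    else if (i : ℕ) = 1 then Real.sin (m * t) else 0

/-- Every `C^∞`-neighbourhood of `c_m` contains a nondegenerate closed curve of `ℝⁿ`. -/
def Perturbable (n m : ℕ) : Prop :=
  ∀ (k : ℕ) (ε : ℝ), 0 < ε → ∃ γ : ℝ → EuclideanSpace ℝ (Fin n), NondegClosed γ ∧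
    ∀ j ≤ k, ∀ t, ‖iteratedDeriv j γ t - iteratedDeriv j (circ n m) t‖ < ε

theorem perturbable_one {n : ℕ} (hn : 4 ≤ n) : Perturbable n 1 := by
  obtain ⟨d, rfl⟩ : ∃ d, n = d + 2 := ⟨n - 2, by omega⟩
  intro k ε hε
  obtain ⟨γ, hγ, hc⟩ := close_circle d (by omega) k ε hε
  refine ⟨γ, ⟨hγ.smooth, hγ.per, hγ.nd⟩, ?_⟩
  have e : circ (d + 2) 1 = fun t => cons2 (Real.cos t) (Real.sin t) 0 := by
    funext t
    ext i
    refine Fin.cases ?_ (fun i => Fin.cases ?_ (fun i => ?_) i) i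
    · simp [cons2, circ]
    · simp [cons2, circ]
    · simp [cons2, circ]
  rw [e]
  exact hc

theorem isLeast_one {n : ℕ} (hn : 4 ≤ n) :
    IsLeast {m : ℕ | 1 ≤ m ∧ Perturbable n m} 1 :=
  ⟨⟨le_rfl, perturbable_one hn⟩, fun _ hm => hm.1⟩

end Pool.Agent.Q140.ND
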