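import Pool.Agent.Q140.ND.Step

/-!
# Existence of nondegenerate closed curves, and closeness to the circle
-/

open scoped RealInnerProductSpace ContDiff
open MeasureTheory

namespace Pool.Agent.Q140.ND

/-- Smooth closed nondegenerate curves. -/
structure Good {n : ℕ} (γ : ℝ → E n) : Prop where
  smooth : ContDiff ℝ ∞ γ
  per : ∀ t, γ (t + 2 * Real.pi) = γ t
  nd : Nondeg γ

/-- The circle in the plane. -/
theorem good2 : ∃ γ : ℝ → E 2, Good γ := by
  refine ⟨fun t => !₂[Real.cos t, Real.sin t], ?_, ?_, ?_⟩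
  · rw [contDiff_euclidean]
    intro i
    fin_cases i
    · simpa using Real.contDiff_cos
    · simpa using Real.contDiff_sin
  · intro t
    simp
  · have hs : ContDiff ℝ ∞ (fun t => (!₂[Real.cos t, Real.sin t] : E 2)) := by
      rw [contDiff_euclidean]
      intro i
      fin_cases i
      · simpa using Real.contDiff_cos
      · simpa using Real.contDiff_sin
    rw [nondeg_iff]
    intro t w hw
    have hF : ∀ j, (fun t => ⟪w, iteratedDeriv j (fun t => (!₂[Real.cos t, Real.sin t] : E 2)) t⟫) =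
        iteratedDeriv j (fun t => w 0 * Real.cos t + w 1 * Real.sin t) := by
      intro j
      have e := iteratedDeriv_clm (innerSL ℝ w) hs j
      have e2 : (fun t => innerSL ℝ w (!₂[Real.cos t, Real.sin t] : E 2)) =
          fun t => w 0 * Real.cos t + w 1 * Real.sin t := by
        funext t
        simp [PiLp.inner_apply, Fin.sum_univ_two, mul_comm]
      rw [e2] at e
      exact e.symm
    have d1 : ∀ t, HasDerivAt (fun t => w 0 * Real.cos t + w 1 * Real.sin t)
        (w 0 * (-Real.sin t) + w 1 * Real.cos t) t := fun t =>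
      ((Real.hasDerivAt_cos t).const_mul (w 0)).add ((Real.hasDerivAt_sin t).const_mul (w 1))
    have d2 : ∀ t, HasDerivAt (fun t => w 0 * (-Real.sin t) + w 1 * Real.cos t)
        (w 0 * (-Real.cos t) + w 1 * (-Real.sin t)) t := fun t =>
      ((Real.hasDerivAt_sin t).neg.const_mul (w 0)).add ((Real.hasDerivAt_cos t).const_mul (w 1))
    have f1 : deriv (fun t => w 0 * Real.cos t + w 1 * Real.sin t) =
        fun t => w 0 * (-Real.sin t) + w 1 * Real.cos t := funext fun t => (d1 t).deriv
    have f2 : deriv (fun t => w 0 * (-Real.sin t) + w 1 * Real.cos t) =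
        fun t => w 0 * (-Real.cos t) + w 1 * (-Real.sin t) := funext fun t => (d2 t).deriv
    have g1 := hw 0 (by norm_num)
    have g2 := hw 1 (by norm_num)
    have k1 := congrFun (hF 1) t
    have k2 := congrFun (hF 2) t
    simp only [zero_add, Nat.reduceAdd] at g1 g2
    rw [g1, iteratedDeriv_one, f1] at k1
    rw [g2, iteratedDeriv_succ, iteratedDeriv_one, f1, f2] at k2
    have hsc := Real.sin_sq_add_cos_sq t
    ext i
    fin_cases i
    · simp only [Fin.zero_eta, PiLp.zero_apply]
      linear_combination (Real.sin t) * k1 + (Real.cos t) * k2 - w 0 * hsc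
    · simp only [Fin.mk_one, PiLp.zero_apply]
      linear_combination (-Real.cos t) * k1 + (Real.sin t) * k2 - w 1 * hsc

/-- A closed space curve without torsion zeros. -/
noncomputable def delt (t : ℝ) : E 3 :=
  !₂[2 * Real.cos t + Real.cos (2 * t), 2 * Real.sin t - Real.sin (2 * t), Real.sin (3 * t)]

theorem smooth_delt : ContDiff ℝ ∞ delt := by
  rw [contDiff_euclidean]
  intro i
  fin_cases i
  · simp only [delt]; simp; fun_prop
  · simp only [delt]; simp; fun_prop
  · simp only [delt]; simp; fun_prop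

theorem good3 : ∃ γ : ℝ → E 3, Good γ := by
  refine ⟨delt, smooth_delt, ?_, ?_⟩
  · intro t
    have h1 : Real.cos (2 * (t + 2 * Real.pi)) = Real.cos (2 * t) := by
      rw [show 2 * (t + 2 * Real.pi) = 2 * t + (2 : ℕ) * (2 * Real.pi) by push_cast; ring,
        Real.cos_add_nat_mul_two_pi]
    have h2 : Real.sin (2 * (t + 2 * Real.pi)) = Real.sin (2 * t) := by
      rw [show 2 * (t + 2 * Real.pi) = 2 * t + (2 : ℕ) * (2 * Real.pi) by push_cast; ring,
        Real.sin_add_nat_mul_two_pi]
    have h3 : Real.sin (3 * (t + 2 * Real.pi)) = Real.sin (3 * t) := by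
      rw [show 3 * (t + 2 * Real.pi) = 3 * t + (3 : ℕ) * (2 * Real.pi) by push_cast; ring,
        Real.sin_add_nat_mul_two_pi]
    simp only [delt, h1, h2, h3, Real.cos_add_two_pi, Real.sin_add_two_pi]
  · rw [nondeg_iff]
    intro t w hw
    set a := w 0 with ha
    set b := w 1 with hb
    set c := w 2 with hc
    set F : ℝ → ℝ := fun t => a * (2 * Real.cos t + Real.cos (2 * t)) +
      b * (2 * Real.sin t - Real.sin (2 * t)) + c * Real.sin (3 * t) with hFd
    have hF : ∀ j, (fun t => ⟪w, iteratedDeriv j delt t⟫) = iteratedDeriv j F := by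
      intro j
      have e := iteratedDeriv_clm (innerSL ℝ w) smooth_delt j
      have e2 : (fun t => innerSL ℝ w (delt t)) = F := by
        funext t
        simp [PiLp.inner_apply, Fin.sum_univ_three, mul_comm, delt, hFd, ha, hb, hc]
      rw [e2] at e
      exact e.symm
    have c2 : ∀ k t : ℝ, HasDerivAt (fun t => Real.cos (k * t)) (-(k * Real.sin (k * t))) t := by
      intro k t
      have := (Real.hasDerivAt_cos (k * t)).comp t ((hasDerivAt_id t).const_mul k)
      refine HasDerivAt.congr_deriv this ?_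
      simp; ring
    have s2 : ∀ k t : ℝ, HasDerivAt (fun t => Real.sin (k * t)) (k * Real.cos (k * t)) t := by
      intro k t
      have := (Real.hasDerivAt_sin (k * t)).comp t ((hasDerivAt_id t).const_mul k)
      refine HasDerivAt.congr_deriv this ?_
      simp; ring
    have d1 : deriv F = fun t => a * (-2 * Real.sin t - 2 * Real.sin (2 * t)) +
        b * (2 * Real.cos t - 2 * Real.cos (2 * t)) + 3 * c * Real.cos (3 * t) := by
      funext t
      have := ((((Real.hasDerivAt_cos t).const_mul 2).add (c2 2 t)).const_mul a).add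
        ((((Real.hasDerivAt_sin t).const_mul 2).sub (s2 2 t)).const_mul b) |>.add
        ((s2 3 t).const_mul c)
      refine (HasDerivAt.congr_deriv this ?_).deriv
      ring
    have d2 : deriv (fun t => a * (-2 * Real.sin t - 2 * Real.sin (2 * t)) +
        b * (2 * Real.cos t - 2 * Real.cos (2 * t)) + 3 * c * Real.cos (3 * t)) =
        fun t => a * (-2 * Real.cos t - 4 * Real.cos (2 * t)) +
        b * (-2 * Real.sin t + 4 * Real.sin (2 * t)) - 9 * c * Real.sin (3 * t) := by
      funext t
      have := ((((Real.hasDerivAt_sin t).const_mul (-2)).sub ((s2 2 t).const_mul 2)).const_mul a).add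
        ((((Real.hasDerivAt_cos t).const_mul 2).sub ((c2 2 t).const_mul 2)).const_mul b) |>.add
        ((c2 3 t).const_mul (3 * c))
      refine (HasDerivAt.congr_deriv this ?_).deriv
      ring
    have d3 : deriv (fun t => a * (-2 * Real.cos t - 4 * Real.cos (2 * t)) +
        b * (-2 * Real.sin t + 4 * Real.sin (2 * t)) - 9 * c * Real.sin (3 * t)) =
        fun t => a * (2 * Real.sin t + 8 * Real.sin (2 * t)) +
        b * (-2 * Real.cos t + 8 * Real.cos (2 * t)) - 27 * c * Real.cos (3 * t) := by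
      funext t
      have := ((((Real.hasDerivAt_cos t).const_mul (-2)).sub ((c2 2 t).const_mul 4)).const_mul a).add
        ((((Real.hasDerivAt_sin t).const_mul (-2)).add ((s2 2 t).const_mul 4)).const_mul b) |>.sub
        ((s2 3 t).const_mul (9 * c))
      refine (HasDerivAt.congr_deriv this ?_).deriv
      ring
    have g1 := hw 0 (by norm_num)
    have g2 := hw 1 (by norm_num)
    have g3 := hw 2 (by norm_num)
    have k1 := congrFun (hF 1) t
    have k2 := congrFun (hF 2) t
    have k3 := congrFun (hF 3) t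
    simp only [zero_add, Nat.reduceAdd] at g1 g2 g3
    rw [g1, iteratedDeriv_one, d1] at k1
    rw [g2, iteratedDeriv_succ, iteratedDeriv_one, d1, d2] at k2
    rw [g3, iteratedDeriv_succ, iteratedDeriv_succ, iteratedDeriv_one, d1, d2, d3] at k3
    simp only at k1 k2 k3
    have hsc := Real.sin_sq_add_cos_sq t
    have C2 : Real.cos (2 * t) = Real.cos t ^ 2 - Real.sin t ^ 2 := Real.cos_two_mul' t
    have S2 : Real.sin (2 * t) = 2 * Real.cos t * Real.sin t := by rw [Real.sin_two_mul]; ring
    have C3 : Real.cos (3 * t) = (Real.cos t ^ 2 - Real.sin t ^ 2) * Real.cos t -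
        2 * Real.cos t * Real.sin t * Real.sin t := by
      rw [show 3 * t = 2 * t + t by ring, Real.cos_add, C2, S2]
    have S3 : Real.sin (3 * t) = 2 * Real.cos t * Real.sin t * Real.cos t +
        (Real.cos t ^ 2 - Real.sin t ^ 2) * Real.sin t := by
      rw [show 3 * t = 2 * t + t by ring, Real.sin_add, C2, S2]
    have hbd := Real.cos_le_one (3 * t)
    have hbd2 := Real.neg_one_le_cos (3 * t)
    have hneg : 12 * (2 * Real.cos (3 * t) - 9 - 2 * Real.cos (3 * t) ^ 2) < 0 := by nlinarith
    rw [C2, S2, C3] at k1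
    rw [C2, S2, S3] at k2
    rw [C2, S2, C3] at k3
    rw [C3] at hneg
    generalize Real.cos t = X at *
    generalize Real.sin t = Y at *
    set D : ℝ := 12 * (2 * ((X ^ 2 - Y ^ 2) * X - 2 * X * Y * Y) - 9 -
      2 * ((X ^ 2 - Y ^ 2) * X - 2 * X * Y * Y) ^ 2) with hD
    set m00 : ℝ := -2 * Y - 2 * (2 * X * Y) with h00
    set m01 : ℝ := 2 * X - 2 * (X ^ 2 - Y ^ 2) with h01
    set m02 : ℝ := 3 * ((X ^ 2 - Y ^ 2) * X - 2 * X * Y * Y) with h02
    set m10 : ℝ := -2 * X - 4 * (X ^ 2 - Y ^ 2) with h10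
    set m11 : ℝ := -2 * Y + 4 * (2 * X * Y) with h11
    set m12 : ℝ := -9 * (2 * X * Y * X + (X ^ 2 - Y ^ 2) * Y) with h12
    set m20 : ℝ := 2 * Y + 8 * (2 * X * Y) with h20
    set m21 : ℝ := -2 * X + 8 * (X ^ 2 - Y ^ 2) with h21
    set m22 : ℝ := -27 * ((X ^ 2 - Y ^ 2) * X - 2 * X * Y * Y) with h22
    have e1 : a * m00 + b * m01 + c * m02 = 0 := by rw [h02]; linarith
    have e2 : a * m10 + b * m11 + c * m12 = 0 := by rw [h12]; linarith
    have e3 : a * m20 + b * m21 + c * m22 = 0 := by rw [h22]; linarith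
    have hdet : m00 * (m11 * m22 - m12 * m21) - m01 * (m10 * m22 - m12 * m20) +
        m02 * (m10 * m21 - m11 * m20) = D := by
      rw [hD, h00, h01, h02, h10, h11, h12, h20, h21, h22]
      linear_combination (120*X^5 - 108*X^4 - 240*X^3*Y^2 + 24*X^3 - 216*X^2*Y^2 - 108*X^2 -
        360*X*Y^4 - 72*X*Y^2 - 108*Y^4 - 108*Y^2 - 108) * hsc
    have hDne : D ≠ 0 := hneg.ne
    clear_value D m00 m01 m02 m10 m11 m12 m20 m21 m22
    have ea : D * a = 0 := by
      rw [← hdet]
      linear_combination (m11 * m22 - m12 * m21) * e1 - (m01 * m22 - m02 * m21) * e2 +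
        (m01 * m12 - m02 * m11) * e3
    have eb : D * b = 0 := by
      rw [← hdet]
      linear_combination (-(m10 * m22 - m12 * m20)) * e1 + (m00 * m22 - m02 * m20) * e2 -
        (m00 * m12 - m02 * m10) * e3
    have ec : D * c = 0 := by
      rw [← hdet]
      linear_combination (m10 * m21 - m11 * m20) * e1 - (m00 * m21 - m01 * m20) * e2 +
        (m00 * m11 - m01 * m10) * e3
    have ha0 : a = 0 := (mul_eq_zero.1 ea).resolve_left hDne
    have hb0 : b = 0 := (mul_eq_zero.1 eb).resolve_left hDne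
    have hc0 : c = 0 := (mul_eq_zero.1 ec).resolve_left hDne
    ext i
    fin_cases i
    · exact ha0
    · exact hb0
    · exact hc0

/-- The data attached to a good curve. -/
theorem Good.osc {d : ℕ} {δ : ℝ → E d} (h : Good δ) :
    ∃ u u' : ℝ → E d, ContDiff ℝ ∞ u ∧ (∀ t, HasDerivAt u (u' t) t) ∧
      (∀ t, HasDerivAt u' (δ (2 * t) - u t) t) ∧ ∀ t, u (t + 2 * Real.pi) = u t := by
  have hs : ContDiff ℝ ∞ (fun t : ℝ => δ (2 * t)) := by
    have := h.smooth
    fun_prop
  obtain ⟨u, u', h1, h2, h3, h4⟩ := exists_osc hs (fun t => by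
    rw [show 2 * (t + Real.pi) = 2 * t + 2 * Real.pi by ring, h.per])
  refine ⟨u, u', h1, h2, h3, fun t => ?_⟩
  rw [show t + 2 * Real.pi = t + Real.pi + Real.pi by ring, h4, h4]

theorem exists_good (d : ℕ) (hd : 2 ≤ d) : ∃ γ : ℝ → E d, Good γ := by
  induction d using Nat.strong_induction_on with
  | _ d ih =>
    rcases Nat.lt_or_ge d 4 with h | h
    · interval_cases d
      · exact good2
      · exact good3
    · obtain ⟨e, rfl⟩ : ∃ e, d = e + 2 := ⟨d - 2, by omega⟩
      obtain ⟨δ, hδ⟩ := ih e (by omega) (by omega)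
      obtain ⟨u, u', h1, h2, h3, h4⟩ := hδ.osc
      refine ⟨fun t => cons2 (Real.cos t) (Real.sin t) ((1 : ℝ) • u t), ?_, ?_, ?_⟩
      · exact smooth_cons2 Real.contDiff_cos Real.contDiff_sin (h1.const_smul (1 : ℝ))
      · intro t
        simp only [Real.cos_add_two_pi, Real.sin_add_two_pi, h4]
      · exact nondeg_step hδ.smooth hδ.nd h1 h2 h3 one_ne_zero

theorem per_iteratedDeriv {V : Type*} [NormedAddCommGroup V] [NormedSpace ℝ V] {v : ℝ → V}
    (hv : ∀ t, v (t + 2 * Real.pi) = v t) (j : ℕ) :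
    ∀ t, iteratedDeriv j v (t + 2 * Real.pi) = iteratedDeriv j v t := by
  induction j with
  | zero => simpa using hv
  | succ j ih =>
    intro t
    rw [iteratedDeriv_succ]
    rw [← deriv_comp_add_const]
    congr 1
    funext s
    exact ih s

theorem bound_iteratedDeriv {V : Type*} [NormedAddCommGroup V] [NormedSpace ℝ V] {v : ℝ → V}
    (hs : ContDiff ℝ ∞ v) (hv : ∀ t, v (t + 2 * Real.pi) = v t) (k : ℕ) :
    ∃ M : ℝ, 0 ≤ M ∧ ∀ j ≤ k, ∀ t, ‖iteratedDeriv j v t‖ ≤ M := by
  have h1 : ∀ j, ∃ M : ℝ, 0 ≤ M ∧ ∀ t, ‖iteratedDeriv j v t‖ ≤ M := by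
    intro j
    have hc : Continuous (iteratedDeriv j v) := (smooth_iteratedDeriv hs j).continuous
    have hp : Function.Periodic (iteratedDeriv j v) (2 * Real.pi) := per_iteratedDeriv hv j
    obtain ⟨M, hM⟩ := (hp.isBounded_of_continuous Real.two_pi_pos.ne' hc).exists_norm_le
    exact ⟨max M 0, le_max_right _ _, fun t => (hM _ ⟨t, rfl⟩).trans (le_max_left _ _)⟩
  choose M hM0 hM using h1
  refine ⟨∑ j ∈ Finset.range (k + 1), M j, Finset.sum_nonneg fun j _ => hM0 j, ?_⟩
  intro j hj t
  exact (hM j t).trans (Finset.single_le_sum (f := M) (fun i _ => hM0 i)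
    (Finset.mem_range.2 (by omega)))

/-- Good curves close to the round circle. -/
theorem close_circle (d : ℕ) (hd : 2 ≤ d) (k : ℕ) (ε : ℝ) (hε : 0 < ε) :
    ∃ γ : ℝ → E (d + 2), Good γ ∧ ∀ j ≤ k, ∀ t, ‖iteratedDeriv j γ t -
      iteratedDeriv j (fun t => cons2 (Real.cos t) (Real.sin t) 0) t‖ < ε := by
  obtain ⟨δ, hδ⟩ := exists_good d hd
  obtain ⟨u, u', h1, h2, h3, h4⟩ := hδ.osc
  have hv : ContDiff ℝ ∞ (fun t => (cons2 0 0 (u t) : E (d + 2))) :=
    smooth_cons2 contDiff_const contDiff_const h1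
  obtain ⟨M, hM0, hM⟩ := bound_iteratedDeriv hv (fun t => by simp only [h4]) k
  set η : ℝ := ε / (M + 1) with hη
  have hη0 : 0 < η := by positivity
  have hs : ContDiff ℝ ∞ (fun t => cons2 (Real.cos t) (Real.sin t) (η • u t)) :=
    smooth_cons2 Real.contDiff_cos Real.contDiff_sin (h1.const_smul η)
  have hc : ContDiff ℝ ∞ (fun t => (cons2 (Real.cos t) (Real.sin t) 0 : E (d + 2))) :=
    smooth_cons2 Real.contDiff_cos Real.contDiff_sin contDiff_const
  refine ⟨fun t => cons2 (Real.cos t) (Real.sin t) (η • u t), ⟨hs, ?_, ?_⟩, ?_⟩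
  · intro t
    simp only [Real.cos_add_two_pi, Real.sin_add_two_pi, h4]
  · exact nondeg_step hδ.smooth hδ.nd h1 h2 h3 hη0.ne'
  · intro j hj t
    have e : (fun t => cons2 (Real.cos t) (Real.sin t) (η • u t)) -
        (fun t => (cons2 (Real.cos t) (Real.sin t) 0 : E (d + 2))) =
        fun t => η • (cons2 0 0 (u t) : E (d + 2)) := by
      funext t
      ext i
      refine Fin.cases ?_ (fun i => Fin.cases ?_ (fun i => ?_) i) i
      · simp [cons2]
      · simp [cons2]
      · simp [cons2]
    rw [← iteratedDeriv_sub (hs.contDiffAt.of_le (by exact_mod_cast le_top))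
      (hc.contDiffAt.of_le (by exact_mod_cast le_top)), e,
      iteratedDeriv_fun_const_smul (hv.contDiffAt.of_le (by exact_mod_cast le_top)), norm_smul,
      Real.norm_of_nonneg hη0.le]
    calc η * ‖iteratedDeriv j (fun t => (cons2 0 0 (u t) : E (d + 2))) t‖ ≤ η * M :=
          mul_le_mul_of_nonneg_left (hM j hj t) hη0.le
      _ < η * (M + 1) := by nlinarith
      _ = ε := by rw [hη]; field_simp

end Pool.Agent.Q140.ND
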