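import Mathlib

/-!
# Fenchel's theorem in a real inner product space
-/

open scoped RealInnerProductSpace
open MeasureTheory Set Filter

namespace Pool.Agent.Q140.ND

variable {V : Type*} [NormedAddCommGroup V] [InnerProductSpace ℝ V]

/-- On the unit sphere, the angle is at most the arc length. -/
theorem arccos_le_length {T T' : ℝ → V} (hT : ∀ t, HasDerivAt T (T' t) t)
    (hc : Continuous T') (h1 : ∀ t, ‖T t‖ = 1) {a b : ℝ} (hab : a ≤ b) :
    Real.arccos ⟪T a, T b⟫ ≤ ∫ t in a..b, ‖T' t‖ := by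
  have horth : ∀ t, ⟪T t, T' t⟫ = 0 := by
    intro t
    have h2 : HasDerivAt (fun t => ⟪T t, T t⟫) (⟪T t, T' t⟫ + ⟪T' t, T t⟫) t :=
      (hT t).inner ℝ (hT t)
    have h3 : (fun t => ⟪T t, T t⟫) = fun _ => (1 : ℝ) := by
      funext t; rw [real_inner_self_eq_norm_sq, h1]; norm_num
    rw [h3] at h2
    have h4 := h2.unique (hasDerivAt_const t (1 : ℝ))
    rw [real_inner_comm (T t) (T' t)] at h4
    linarith
  have hTc : Continuous T := continuous_iff_continuousAt.2 fun t => (hT t).continuousAt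
  set φ : ℝ → ℝ := fun t => ⟪T a, T t⟫ with hφ
  have hφc : Continuous φ := continuous_const.inner hTc
  have hφd : ∀ t, HasDerivAt φ ⟪T a, T' t⟫ t := by
    intro t
    have h2 : HasDerivAt φ (⟪T a, T' t⟫ + ⟪(0 : V), T t⟫) t :=
      (hasDerivAt_const t (T a)).inner ℝ (hT t)
    simpa using h2
  have hφ1 : ∀ t, |φ t| ≤ 1 := by
    intro t
    have := abs_real_inner_le_norm (T a) (T t)
    rw [h1, h1, mul_one] at this
    exact this
  have hφ' : ∀ t, |⟪T a, T' t⟫| ≤ Real.sqrt (1 - φ t ^ 2) * ‖T' t‖ := by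
    intro t
    have e : ⟪T a, T' t⟫ = ⟪T a - φ t • T t, T' t⟫ := by
      rw [inner_sub_left, real_inner_smul_left, horth, mul_zero, sub_zero]
    have n : ‖T a - φ t • T t‖ = Real.sqrt (1 - φ t ^ 2) := by
      rw [norm_eq_sqrt_real_inner]
      congr 1
      rw [inner_sub_left, inner_sub_right, inner_sub_right, real_inner_smul_left,
        real_inner_smul_right, real_inner_smul_right, real_inner_smul_left,
        real_inner_self_eq_norm_sq, real_inner_self_eq_norm_sq, h1, h1,
        real_inner_comm (T a) (T t)]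
      simp only [hφ]
      ring
    rw [e, ← n]
    exact abs_real_inner_le_norm _ _
  have key : ∀ c : ℝ, 0 < c → c < 1 →
      Real.arccos (c * φ b) - Real.arccos (c * φ a) ≤ ∫ t in a..b, ‖T' t‖ := by
    intro c hc0 hc1
    have hlt : ∀ t, |c * φ t| < 1 := by
      intro t
      rw [abs_mul, abs_of_pos hc0]
      calc c * |φ t| ≤ c * 1 := mul_le_mul_of_nonneg_left (hφ1 t) hc0.le
        _ < 1 := by linarith
    have hpos : ∀ t, 0 < 1 - (c * φ t) ^ 2 := by
      intro t
      have := (sq_lt_one_iff_abs_lt_one (c * φ t)).2 (hlt t)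
      linarith
    have hg : ∀ t, HasDerivAt (fun t => Real.arccos (c * φ t))
        (-(1 / Real.sqrt (1 - (c * φ t) ^ 2)) * (c * ⟪T a, T' t⟫)) t := by
      intro t
      have h2 := abs_lt.1 (hlt t)
      exact HasDerivAt.comp (h₂ := Real.arccos) t (Real.hasDerivAt_arccos h2.1.ne' h2.2.ne)
        ((hφd t).const_mul c)
    have hgc : Continuous (fun t => -(1 / Real.sqrt (1 - (c * φ t) ^ 2)) *
        (c * ⟪T a, T' t⟫)) := by
      apply Continuous.mul
      · apply Continuous.neg
        apply Continuous.div continuous_const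
        · fun_prop
        · intro t
          exact (Real.sqrt_pos.2 (hpos t)).ne'
      · exact continuous_const.mul (continuous_const.inner hc)
    rw [← intervalIntegral.integral_eq_sub_of_hasDerivAt (fun t _ => hg t)
      (hgc.intervalIntegrable _ _)]
    apply intervalIntegral.integral_mono_on hab (hgc.intervalIntegrable _ _)
      (hc.norm.intervalIntegrable _ _)
    intro t _
    refine (le_abs_self _).trans ?_
    rw [abs_mul, abs_neg, abs_div, abs_one, abs_of_pos (Real.sqrt_pos.2 (hpos t)), abs_mul,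
      abs_of_pos hc0]
    rw [div_mul_eq_mul_div, one_mul, div_le_iff₀ (Real.sqrt_pos.2 (hpos t))]
    calc c * |⟪T a, T' t⟫| ≤ c * (Real.sqrt (1 - φ t ^ 2) * ‖T' t‖) :=
          mul_le_mul_of_nonneg_left (hφ' t) hc0.le
      _ = (c * Real.sqrt (1 - φ t ^ 2)) * ‖T' t‖ := by ring
      _ ≤ Real.sqrt (1 - (c * φ t) ^ 2) * ‖T' t‖ := by
          apply mul_le_mul_of_nonneg_right _ (norm_nonneg _)
          apply Real.le_sqrt_of_sq_le
          have h3 : φ t ^ 2 ≤ 1 := by
            have := (sq_le_one_iff_abs_le_one (φ t)).2 (hφ1 t)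
            exact this
          rw [mul_pow, Real.sq_sqrt (by linarith)]
          nlinarith
      _ = ‖T' t‖ * Real.sqrt (1 - (c * φ t) ^ 2) := by ring
  have hφa : φ a = 1 := by
    simp only [hφ]
    rw [real_inner_self_eq_norm_sq, h1]; norm_num
  have hcont : Continuous (fun c : ℝ => Real.arccos (c * φ b) - Real.arccos (c * φ a)) :=
    (Real.continuous_arccos.comp (by fun_prop)).sub (Real.continuous_arccos.comp (by fun_prop))
  have hlim : Tendsto (fun c : ℝ => Real.arccos (c * φ b) - Real.arccos (c * φ a))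
      (nhdsWithin 1 (Iio 1)) (nhds (Real.arccos (1 * φ b) - Real.arccos (1 * φ a))) :=
    (hcont.tendsto 1).mono_left nhdsWithin_le_nhds
  have hev : ∀ᶠ c in nhdsWithin (1 : ℝ) (Iio 1),
      Real.arccos (c * φ b) - Real.arccos (c * φ a) ≤ ∫ t in a..b, ‖T' t‖ := by
    have : ∀ᶠ c in nhdsWithin (1 : ℝ) (Iio 1), (0 : ℝ) < c :=
      (lt_mem_nhds (zero_lt_one)).filter_mono nhdsWithin_le_nhds
    filter_upwards [this, self_mem_nhdsWithin] with c h0 h1
    exact key c h0 h1
  have := le_of_tendsto hlim hev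
  rw [one_mul, one_mul, hφa, Real.arccos_one, sub_zero] at this
  exact this

/-- Fenchel's theorem: a closed curve on the unit sphere having `0` in the interior of its
convex hull (in the form of a positive density with vanishing first moment) has length at
least `2π`. -/
theorem fenchel {T T' : ℝ → V} (hT : ∀ t, HasDerivAt T (T' t) t)
    (hc : Continuous T') (h1 : ∀ t, ‖T t‖ = 1) {ℓ : ℝ} (hℓ : 0 < ℓ) (hper : T ℓ = T 0)
    {ρ : ℝ → ℝ} (hρ : Continuous ρ) (hρ0 : ∀ t, 0 < ρ t)
    (hint : ∀ w : V, ∫ t in (0 : ℝ)..ℓ, ρ t * ⟪T t, w⟫ = 0) :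
    2 * Real.pi ≤ ∫ t in (0 : ℝ)..ℓ, ‖T' t‖ := by
  by_contra hcon
  push Not at hcon
  have hTc : Continuous T := continuous_iff_continuousAt.2 fun t => (hT t).continuousAt
  set S : ℝ → ℝ := fun t => ∫ s in (0 : ℝ)..t, ‖T' s‖ with hS
  have hint' : ∀ a b, IntervalIntegrable (fun s => ‖T' s‖) volume a b :=
    fun a b => hc.norm.intervalIntegrable a b
  have hSd : ∀ t, HasDerivAt S ‖T' t‖ t := fun t =>
    intervalIntegral.integral_hasDerivAt_right (hint' 0 t)
      (hc.norm.stronglyMeasurableAtFilter _ _) hc.norm.continuousAt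
  have hSc : Continuous S := continuous_iff_continuousAt.2 fun t => (hSd t).continuousAt
  have hS0 : S 0 = 0 := by simp [hS]
  have hSdiff : ∀ a b, S b - S a = ∫ s in a..b, ‖T' s‖ := fun a b =>
    intervalIntegral.integral_interval_sub_left (hint' 0 b) (hint' 0 a)
  have hSℓ0 : 0 ≤ S ℓ := intervalIntegral.integral_nonneg hℓ.le fun t _ => norm_nonneg _
  obtain ⟨a, ha, haS⟩ : ∃ a ∈ Icc (0 : ℝ) ℓ, S a = S ℓ / 2 := by
    have := intermediate_value_Icc hℓ.le hSc.continuousOn
    exact this ⟨by rw [hS0]; linarith, by linarith⟩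
  set w : V := T 0 + T a with hw
  have hne : ∀ t ∈ Icc (0 : ℝ) ℓ, ⟪T t, w⟫ ≠ 0 := by
    intro t ht h0
    rw [hw, inner_add_right] at h0
    rcases le_total t a with hta | hta
    · have k1 := arccos_le_length hT hc h1 ht.1
      have k2 := arccos_le_length hT hc h1 hta
      rw [← hSdiff] at k1 k2
      have k3 : ⟪T t, T a⟫ = - ⟪T 0, T t⟫ := by rw [real_inner_comm (T t) (T 0)]; linarith
      rw [k3, Real.arccos_neg] at k2
      change S ℓ < 2 * Real.pi at hcon
      linarith
    · have k1 := arccos_le_length hT hc h1 hta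
      have k2 := arccos_le_length hT hc h1 ht.2
      rw [← hSdiff] at k1 k2
      have k3 : ⟪T t, T ℓ⟫ = - ⟪T a, T t⟫ := by
        rw [hper, real_inner_comm (T t) (T a)]; linarith
      rw [k3, Real.arccos_neg] at k2
      change S ℓ < 2 * Real.pi at hcon
      linarith
  have hφc : Continuous (fun t => ⟪T t, w⟫) := hTc.inner continuous_const
  have h00 : 0 < ⟪T 0, w⟫ := by
    have h2 : 0 ≤ ⟪T 0, w⟫ := by
      rw [hw, inner_add_right, real_inner_self_eq_norm_sq, h1]
      have := abs_real_inner_le_norm (T 0) (T a)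
      rw [h1, h1, mul_one] at this
      have := (abs_le.1 this).1
      linarith
    exact lt_of_le_of_ne h2 (hne 0 ⟨le_rfl, hℓ.le⟩).symm
  have hpos : ∀ t ∈ Icc (0 : ℝ) ℓ, 0 < ⟪T t, w⟫ := by
    intro t ht
    by_contra hn
    push Not at hn
    have := intermediate_value_Icc' ht.1 hφc.continuousOn
    obtain ⟨s, hs, hs0⟩ := this ⟨hn, h00.le⟩
    exact hne s ⟨hs.1, hs.2.trans ht.2⟩ hs0
  have hI : 0 < ∫ t in (0 : ℝ)..ℓ, ρ t * ⟪T t, w⟫ := by
    apply intervalIntegral.intervalIntegral_pos_of_pos_on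
      ((hρ.mul hφc).intervalIntegrable _ _) _ hℓ
    intro t ht
    exact mul_pos (hρ0 t) (hpos t ⟨ht.1.le, ht.2.le⟩)
  rw [hint w] at hI
  exact lt_irrefl _ hI

end Pool.Agent.Q140.ND
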