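import Pool.Agent.Q140.ND.Defs
import Pool.Agent.Q140.ND.Fenchel

/-!
# The length of the Frenet frame
-/

open scoped RealInnerProductSpace ContDiff
open MeasureTheory Set Filter InnerProductSpace

namespace Pool.Agent.Q140.ND

/-- The Frenet frame `e_1, ..., e_n` (`n = N + 1`, indices shifted by one), obtained by
Gram-Schmidt from `γ', γ'', ..., γ^(n)`. -/
noncomputable def frame {N : ℕ} (γ : ℝ → EuclideanSpace ℝ (Fin (N + 1))) (i : Fin (N + 1))
    (t : ℝ) : EuclideanSpace ℝ (Fin (N + 1)) :=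
  gramSchmidtNormed ℝ (fun j : Fin (N + 1) => iteratedDeriv ((j : ℕ) + 1) γ t) i

/-- The curvatures `κ_1, ..., κ_{n-1}` (indices shifted by one): `κ_i` is the component along
`e_{i+1}` of the derivative of `e_i` with respect to arc length. -/
noncomputable def curvature {N : ℕ} (γ : ℝ → EuclideanSpace ℝ (Fin (N + 1))) (i : Fin N)
    (t : ℝ) : ℝ :=
  ⟪deriv (frame γ i.castSucc) t, frame γ i.succ t⟫ / ‖deriv γ t‖

/-- The length `L(E) = ∫ (κ_1² + ... + κ_{n-1}²)^{1/2} ds` of the Frenet frame of a closed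
curve. -/
noncomputable def frameLength {N : ℕ} (γ : ℝ → EuclideanSpace ℝ (Fin (N + 1))) : ℝ :=
  ∫ t in (0 : ℝ)..(2 * Real.pi), Real.sqrt (∑ i, curvature γ i t ^ 2) * ‖deriv γ t‖

section smooth

variable {V : Type*} [NormedAddCommGroup V] [InnerProductSpace ℝ V] {n : ℕ}

theorem smooth_gs {v : Fin n → ℝ → V} (hv : ∀ i, ContDiff ℝ ∞ (v i))
    (hli : ∀ t, LinearIndependent ℝ (fun i => v i t)) (i : Fin n) :
    ContDiff ℝ ∞ (fun t => gramSchmidt ℝ (fun j => v j t) i) := by
  induction i using WellFoundedLT.induction with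
  | _ i ih =>
    have e : (fun t => gramSchmidt ℝ (fun j => v j t) i) = fun t => v i t -
        ∑ j ∈ Finset.Iio i, (⟪gramSchmidt ℝ (fun j => v j t) j, v i t⟫ /
          ‖gramSchmidt ℝ (fun j => v j t) j‖ ^ 2) • gramSchmidt ℝ (fun j => v j t) j := by
      funext t
      have := gramSchmidt_def'' ℝ (fun j => v j t) i
      rw [eq_sub_iff_add_eq]
      exact this.symm
    rw [e]
    apply (hv i).sub
    apply ContDiff.sum
    intro j hj
    have hj' := ih j (Finset.mem_Iio.1 hj)
    apply ContDiff.smul _ hj'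
    apply ContDiff.div (hj'.inner ℝ (hv i)) (hj'.norm_sq ℝ)
    intro t
    have := gramSchmidt_ne_zero (𝕜 := ℝ) j (hli t)
    positivity

theorem smooth_gsn {v : Fin n → ℝ → V} (hv : ∀ i, ContDiff ℝ ∞ (v i))
    (hli : ∀ t, LinearIndependent ℝ (fun i => v i t)) (i : Fin n) :
    ContDiff ℝ ∞ (fun t => gramSchmidtNormed ℝ (fun j => v j t) i) := by
  have h := smooth_gs hv hli i
  have hne : ∀ t, gramSchmidt ℝ (fun j => v j t) i ≠ 0 := fun t =>
    gramSchmidt_ne_zero (𝕜 := ℝ) i (hli t)
  exact ((h.norm ℝ hne).inv fun t => norm_ne_zero_iff.2 (hne t)).smul h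

end smooth

variable {N : ℕ} {γ : ℝ → EuclideanSpace ℝ (Fin (N + 1))}

theorem NondegClosed.smooth_frame (h : NondegClosed γ) (i : Fin (N + 1)) :
    ContDiff ℝ ∞ (frame γ i) :=
  smooth_gsn (v := fun (j : Fin (N + 1)) t => iteratedDeriv ((j : ℕ) + 1) γ t)
    (fun _ => smooth_iteratedDeriv h.smooth _) h.nondegenerate i

theorem NondegClosed.hasDerivAt_frame (h : NondegClosed γ) (i : Fin (N + 1)) (t : ℝ) :
    HasDerivAt (frame γ i) (deriv (frame γ i) t) t :=
  ((h.smooth_frame i).differentiable (by simp) t).hasDerivAt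

theorem NondegClosed.continuous_deriv_frame (h : NondegClosed γ) (i : Fin (N + 1)) :
    Continuous (deriv (frame γ i)) :=
  (h.smooth_frame i).continuous_deriv (by simp)

theorem NondegClosed.orthonormal (h : NondegClosed γ) (t : ℝ) :
    Orthonormal ℝ (fun i => frame γ i t) :=
  gramSchmidtNormed_orthonormal (h.nondegenerate t)

theorem NondegClosed.deriv_ne (h : NondegClosed γ) (t : ℝ) : deriv γ t ≠ 0 := by
  have := (h.nondegenerate t).ne_zero (0 : Fin (N + 1))
  simpa using this

/-- Lower triangular orthogonality. -/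
theorem NondegClosed.frame_orth (_h : NondegClosed γ) {i j : Fin (N + 1)} (hij : i < j) (t : ℝ) :
    ⟪iteratedDeriv ((i : ℕ) + 1) γ t, frame γ j t⟫ = 0 := by
  unfold frame gramSchmidtNormed
  rw [inner_smul_right, real_inner_comm, gramSchmidt_inv_triangular ℝ
    (fun j : Fin (N + 1) => iteratedDeriv ((j : ℕ) + 1) γ t) hij, mul_zero]

/-- Diagonal entries do not vanish. -/
theorem NondegClosed.frame_diag (h : NondegClosed γ) (i : Fin (N + 1)) (t : ℝ) :
    ⟪iteratedDeriv ((i : ℕ) + 1) γ t, frame γ i t⟫ ≠ 0 := by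
  have hne := gramSchmidt_ne_zero (𝕜 := ℝ) i (h.nondegenerate t)
  unfold frame gramSchmidtNormed
  rw [inner_smul_right, real_inner_comm]
  have e := gramSchmidt_def'' ℝ (fun j : Fin (N + 1) => iteratedDeriv ((j : ℕ) + 1) γ t) i
  have e2 : ⟪gramSchmidt ℝ (fun j : Fin (N + 1) => iteratedDeriv ((j : ℕ) + 1) γ t) i,
      iteratedDeriv ((i : ℕ) + 1) γ t⟫ =
      ‖gramSchmidt ℝ (fun j : Fin (N + 1) => iteratedDeriv ((j : ℕ) + 1) γ t) i‖ ^ 2 := by
    rw [← real_inner_self_eq_norm_sq]
    conv_lhs => rw [e]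
    rw [inner_add_right, inner_sum]
    rw [Finset.sum_eq_zero, add_zero]
    intro j hj
    rw [inner_smul_right, gramSchmidt_orthogonal ℝ _ (Finset.mem_Iio.1 hj).ne', mul_zero]
  rw [e2]
  apply mul_ne_zero
  · apply inv_ne_zero
    simpa using hne
  · exact pow_ne_zero 2 (norm_ne_zero_iff.2 hne)

theorem NondegClosed.inner_frame (h : NondegClosed γ) {i j : Fin (N + 1)} (hij : i ≠ j) (t : ℝ) :
    ⟪frame γ i t, frame γ j t⟫ = 0 := (h.orthonormal t).2 hij

theorem NondegClosed.norm_frame (h : NondegClosed γ) (i : Fin (N + 1)) (t : ℝ) :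
    ‖frame γ i t‖ = 1 := (h.orthonormal t).1 i

/-- Expansion in the frame. -/
theorem NondegClosed.expand (h : NondegClosed γ) (x : EuclideanSpace ℝ (Fin (N + 1))) (t : ℝ) :
    x = ∑ i, ⟪frame γ i t, x⟫ • frame γ i t := by
  have hb := OrthonormalBasis.mk (h.orthonormal t) (by
    rw [top_le_iff]
    apply Submodule.eq_top_of_finrank_eq
    rw [finrank_span_eq_card (h.orthonormal t).linearIndependent]
    simp)
  let b : OrthonormalBasis (Fin (N + 1)) ℝ (EuclideanSpace ℝ (Fin (N + 1))) :=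
    OrthonormalBasis.mk (h.orthonormal t) (by
      rw [top_le_iff]
      apply Submodule.eq_top_of_finrank_eq
      rw [finrank_span_eq_card (h.orthonormal t).linearIndependent]
      simp)
  have hbi : ∀ i, b i = frame γ i t := fun i => by simp [b]
  have := b.sum_repr' x
  simp only [hbi] at this
  exact this.symm

/-- The derivative of the product of orthogonal frame vectors. -/
theorem NondegClosed.skew (h : NondegClosed γ) {i j : Fin (N + 1)} (hij : i ≠ j) (t : ℝ) :
    ⟪frame γ i t, deriv (frame γ j) t⟫ = - ⟪deriv (frame γ i) t, frame γ j t⟫ := by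
  have h2 := (h.hasDerivAt_frame i t).inner ℝ (h.hasDerivAt_frame j t)
  have h3 : (fun t => ⟪frame γ i t, frame γ j t⟫) = fun _ => (0 : ℝ) :=
    funext fun t => h.inner_frame hij t
  rw [h3] at h2
  have h4 := h2.unique (hasDerivAt_const t (0 : ℝ))
  linarith

/-- For `i + 1 < j` the curve derivative `γ^(i+1)` is orthogonal to the derivative of `e_j`. -/
theorem NondegClosed.orth_deriv (h : NondegClosed γ) {i j : Fin (N + 1)}
    (hij : (i : ℕ) + 1 < j) (t : ℝ) :
    ⟪iteratedDeriv ((i : ℕ) + 1) γ t, deriv (frame γ j) t⟫ = 0 := by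
  have hd : HasDerivAt (iteratedDeriv ((i : ℕ) + 1) γ) (iteratedDeriv ((i : ℕ) + 1 + 1) γ t) t := by
    rw [iteratedDeriv_succ (n := (i : ℕ) + 1)]
    exact ((smooth_iteratedDeriv h.smooth ((i : ℕ) + 1)).differentiable (by simp) t).hasDerivAt
  have h2 := hd.inner ℝ (h.hasDerivAt_frame j t)
  have h3 : (fun t => ⟪iteratedDeriv ((i : ℕ) + 1) γ t, frame γ j t⟫) = fun _ => (0 : ℝ) :=
    funext fun t => h.frame_orth (Fin.lt_def.2 (by omega)) t
  rw [h3] at h2
  have h4 := h2.unique (hasDerivAt_const t (0 : ℝ))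
  have h5 : ⟪iteratedDeriv ((i : ℕ) + 1 + 1) γ t, frame γ j t⟫ = 0 :=
    h.frame_orth (i := ⟨(i : ℕ) + 1, by omega⟩) (Fin.lt_def.2 hij) t
  linarith

theorem NondegClosed.frame_zero (h : NondegClosed γ) (t : ℝ) :
    deriv γ t = ‖deriv γ t‖ • frame γ 0 t := by
  have e : gramSchmidt ℝ (fun j : Fin (N + 1) => iteratedDeriv ((j : ℕ) + 1) γ t) 0 =
      deriv γ t := by
    have h0 : Finset.Iio (0 : Fin (N + 1)) = ∅ := by ext x; simp
    rw [gramSchmidt_def, h0]
    simp
  unfold frame gramSchmidtNormed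
  rw [e, smul_smul]
  have : ‖deriv γ t‖ ≠ 0 := norm_ne_zero_iff.2 (h.deriv_ne t)
  simp [this]

/-- `e_1'` is orthogonal to `e_j` for `j ≥ 3`. -/
theorem NondegClosed.inner_deriv_zero (h : NondegClosed γ) {j : Fin (N + 1)} (hj : 1 < (j : ℕ))
    (t : ℝ) : ⟪deriv (frame γ 0) t, frame γ j t⟫ = 0 := by
  have h0 : (0 : Fin (N + 1)) ≠ j := by
    intro h; rw [← h] at hj; simp at hj
  have h1 := h.skew h0 t
  have h2 := h.orth_deriv (i := 0) (j := j) (by simpa using hj) t
  have h3 : iteratedDeriv (((0 : Fin (N + 1)) : ℕ) + 1) γ t = ‖deriv γ t‖ • frame γ 0 t := by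
    rw [← h.frame_zero t]; simp
  rw [h3, real_inner_smul_left] at h2
  have h4 : ⟪frame γ 0 t, deriv (frame γ j) t⟫ = 0 := by
    rcases mul_eq_zero.1 h2 with h5 | h5
    · exact absurd h5 (norm_ne_zero_iff.2 (h.deriv_ne t))
    · exact h5
  linarith

/-- `e_1'` is a multiple of `e_2`. -/
theorem NondegClosed.norm_deriv_zero (h : NondegClosed γ) (hN : 1 < N + 1) (t : ℝ) :
    ‖deriv (frame γ 0) t‖ = |⟪deriv (frame γ 0) t, frame γ ⟨1, hN⟩ t⟫| := by
  have hself : ⟪frame γ 0 t, deriv (frame γ 0) t⟫ = 0 := by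
    have h2 := (h.hasDerivAt_frame 0 t).inner ℝ (h.hasDerivAt_frame 0 t)
    have h3 : (fun t => ⟪frame γ 0 t, frame γ 0 t⟫) = fun _ => (1 : ℝ) := by
      funext t; rw [real_inner_self_eq_norm_sq, h.norm_frame]; norm_num
    rw [h3] at h2
    have h4 := h2.unique (hasDerivAt_const t (1 : ℝ))
    rw [real_inner_comm (frame γ 0 t) (deriv (frame γ 0) t)] at h4
    linarith
  have e := h.expand (deriv (frame γ 0) t) t
  rw [Finset.sum_eq_single (⟨1, hN⟩ : Fin (N + 1))] at e
  · conv_lhs => rw [e]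
    rw [norm_smul, h.norm_frame, mul_one, Real.norm_eq_abs, real_inner_comm]
  · intro j _ hj
    by_cases hj0 : j = 0
    · rw [hj0, hself, zero_smul]
    · have : 1 < (j : ℕ) := by
        have h1 : (j : ℕ) ≠ 1 := fun h => hj (Fin.ext h)
        have h0 : (j : ℕ) ≠ 0 := fun h => hj0 (Fin.ext h)
        omega
      rw [real_inner_comm, h.inner_deriv_zero this t, zero_smul]
  · simp

/-- The second curvature does not vanish. -/
theorem NondegClosed.second_ne (h : NondegClosed γ) (hN : 2 < N + 1) (t : ℝ) :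
    ⟪deriv (frame γ ⟨1, by omega⟩) t, frame γ ⟨2, hN⟩ t⟫ ≠ 0 := by
  set j1 : Fin (N + 1) := ⟨1, by omega⟩ with hj1
  set j2 : Fin (N + 1) := ⟨2, hN⟩ with hj2
  have hd : HasDerivAt (iteratedDeriv 2 γ) (iteratedDeriv 3 γ t) t := by
    rw [iteratedDeriv_succ (n := 2)]
    exact ((smooth_iteratedDeriv h.smooth 2).differentiable (by simp) t).hasDerivAt
  have h2 := hd.inner ℝ (h.hasDerivAt_frame j2 t)
  have h3 : (fun t => ⟪iteratedDeriv 2 γ t, frame γ j2 t⟫) = fun _ => (0 : ℝ) :=
    funext fun t => h.frame_orth (i := j1) (Fin.lt_def.2 (by simp [hj1, hj2])) t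
  rw [h3] at h2
  have h4 := h2.unique (hasDerivAt_const t (0 : ℝ))
  have h5 : ⟪iteratedDeriv 3 γ t, frame γ j2 t⟫ ≠ 0 := h.frame_diag j2 t
  have h6 : ⟪iteratedDeriv 2 γ t, deriv (frame γ j2) t⟫ ≠ 0 := by
    intro h7
    rw [h7] at h4
    apply h5
    linarith
  have h7 : ⟪frame γ 0 t, deriv (frame γ j2) t⟫ = 0 := by
    have h8 := h.orth_deriv (i := 0) (j := j2) (by simp [hj2]) t
    have h9 : iteratedDeriv (((0 : Fin (N + 1)) : ℕ) + 1) γ t = ‖deriv γ t‖ • frame γ 0 t := by
      rw [← h.frame_zero t]; simp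
    rw [h9, real_inner_smul_left] at h8
    rcases mul_eq_zero.1 h8 with h5 | h5
    · exact absurd h5 (norm_ne_zero_iff.2 (h.deriv_ne t))
    · exact h5
  have e := h.expand (iteratedDeriv 2 γ t) t
  have e2 : ⟪iteratedDeriv 2 γ t, deriv (frame γ j2) t⟫ =
      ⟪frame γ j1 t, iteratedDeriv 2 γ t⟫ * ⟪frame γ j1 t, deriv (frame γ j2) t⟫ := by
    conv_lhs => rw [e]
    rw [sum_inner, Finset.sum_eq_single j1]
    · rw [real_inner_smul_left]
    · intro j _ hj
      rw [real_inner_smul_left]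
      by_cases hj0 : j = 0
      · rw [hj0, h7, mul_zero]
      · have : 1 < (j : ℕ) := by
          have h1 : (j : ℕ) ≠ 1 := fun h => hj (Fin.ext h)
          have h0 : (j : ℕ) ≠ 0 := fun h => hj0 (Fin.ext h)
          omega
        have h10 : ⟪iteratedDeriv 2 γ t, frame γ j t⟫ = 0 :=
          h.frame_orth (i := j1) (Fin.lt_def.2 (by simpa [hj1] using this)) t
        rw [real_inner_comm, h10, zero_mul]
    · simp
  intro h8
  apply h6
  have hne : j1 ≠ j2 := by
    intro h; have := congrArg Fin.val h; simp [hj1, hj2] at this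
  rw [e2, h.skew hne, h8]
  simp

/-- The frame of a nondegenerate closed curve in `ℝⁿ`, `n ≥ 3`, is longer than `2π`. -/
theorem NondegClosed.two_pi_lt (h : NondegClosed γ) (hN : 2 < N + 1) :
    2 * Real.pi < frameLength γ := by
  have hcont : Continuous (fun t => Real.sqrt (∑ i, curvature γ i t ^ 2) * ‖deriv γ t‖) := by
    have h1 : Continuous (deriv γ) := h.smooth.continuous_deriv (by simp)
    apply Continuous.mul _ h1.norm
    apply Continuous.sqrt
    apply continuous_finsetSum
    intro i _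
    apply Continuous.pow
    apply Continuous.div
    · exact (h.continuous_deriv_frame _).inner (h.smooth_frame _).continuous
    · exact h1.norm
    · intro t
      exact norm_ne_zero_iff.2 (h.deriv_ne t)
  have hlt : ∀ t, ‖deriv (frame γ 0) t‖ <
      Real.sqrt (∑ i, curvature γ i t ^ 2) * ‖deriv γ t‖ := by
    intro t
    have hpos : 0 < ‖deriv γ t‖ := norm_pos_iff.2 (h.deriv_ne t)
    rw [← Real.sqrt_sq hpos.le, ← Real.sqrt_mul (Finset.sum_nonneg fun i _ => sq_nonneg _)]
    apply Real.lt_sqrt_of_sq_lt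
    rw [h.norm_deriv_zero (by omega) t, sq_abs]
    set i0 : Fin N := ⟨0, by omega⟩ with hi0
    set i1 : Fin N := ⟨1, by omega⟩ with hi1
    have hsum : curvature γ i0 t ^ 2 + curvature γ i1 t ^ 2 ≤ ∑ i, curvature γ i t ^ 2 := by
      have hne : i0 ≠ i1 := by
        intro h; have := congrArg Fin.val h; simp [hi0, hi1] at this
      rw [← Finset.sum_pair (f := fun i => curvature γ i t ^ 2) hne]
      exact Finset.sum_le_sum_of_subset_of_nonneg (Finset.subset_univ _)
        fun i _ _ => sq_nonneg _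
    have hc0 : curvature γ i0 t * ‖deriv γ t‖ =
        ⟪deriv (frame γ 0) t, frame γ ⟨1, by omega⟩ t⟫ := by
      unfold curvature
      rw [div_mul_cancel₀ _ hpos.ne']
      rfl
    have hc1 : curvature γ i1 t ≠ 0 := by
      unfold curvature
      apply div_ne_zero _ hpos.ne'
      exact h.second_ne hN t
    rw [← hc0, mul_pow]
    apply mul_lt_mul_of_pos_right _ (by positivity)
    have : 0 < curvature γ i1 t ^ 2 := by positivity
    linarith
  have hper : frame γ 0 (2 * Real.pi) = frame γ 0 0 := by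
    unfold frame
    congr 1
    funext j
    have := per_iteratedDeriv h.closed ((j : ℕ) + 1) 0
    rwa [zero_add] at this
  have hF := fenchel (T := frame γ 0) (T' := deriv (frame γ 0)) (h.hasDerivAt_frame 0)
    (h.continuous_deriv_frame 0) (h.norm_frame 0) Real.two_pi_pos hper
    (ρ := fun t => ‖deriv γ t‖) (h.smooth.continuous_deriv (by simp)).norm
    (fun t => norm_pos_iff.2 (h.deriv_ne t)) (by
      intro w
      have e : (fun t => ‖deriv γ t‖ * ⟪frame γ 0 t, w⟫) = fun t => ⟪deriv γ t, w⟫ := by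
        funext t
        conv_rhs => rw [h.frame_zero t]
        rw [real_inner_smul_left]
      rw [e]
      have hd : ∀ t, HasDerivAt (fun t => ⟪γ t, w⟫) ⟪deriv γ t, w⟫ t := by
        intro t
        have h1 : HasDerivAt γ (deriv γ t) t := (h.smooth.differentiable (by simp) t).hasDerivAt
        have := h1.inner ℝ (hasDerivAt_const t w)
        simpa using this
      rw [intervalIntegral.integral_eq_sub_of_hasDerivAt (fun t _ => hd t)]
      · have := h.closed 0
        rw [zero_add] at this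
        rw [this, sub_self]
      · exact ((h.smooth.continuous_deriv (by simp)).inner continuous_const).intervalIntegrable _ _)
  refine hF.trans_lt ?_
  unfold frameLength
  apply intervalIntegral.integral_lt_integral_of_continuousOn_of_le_of_exists_lt
    Real.two_pi_pos (h.continuous_deriv_frame 0).norm.continuousOn hcont.continuousOn
    (fun t _ => (hlt t).le) ⟨0, ⟨le_rfl, Real.two_pi_pos.le⟩, hlt 0⟩

end Pool.Agent.Q140.ND
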