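import Pool.Agent.Q140.ND.Basic

/-!
# From dimension `d` to dimension `d + 2`
-/

open scoped RealInnerProductSpace ContDiff
open MeasureTheory

namespace Pool.Agent.Q140.ND

/-- Append two coordinates in front. -/
noncomputable def cons2 {d : ℕ} (a b : ℝ) (x : E d) : E (d + 2) :=
  WithLp.toLp 2 (Fin.cons a (Fin.cons b x.ofLp))

/-- Drop the first two coordinates. -/
noncomputable def tail2 {d : ℕ} (w : E (d + 2)) : E d := WithLp.toLp 2 fun i => w i.succ.succ

theorem inner_cons2 {d : ℕ} (w : E (d + 2)) (a b : ℝ) (x : E d) :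
    ⟪w, cons2 a b x⟫ = w 0 * a + w 1 * b + ⟪tail2 w, x⟫ := by
  simp only [PiLp.inner_apply, cons2, tail2]
  rw [Fin.sum_univ_succ, Fin.sum_univ_succ]
  simp [mul_comm]
  ring

theorem smooth_cons2 {d : ℕ} {a b : ℝ → ℝ} {x : ℝ → E d} (ha : ContDiff ℝ ∞ a)
    (hb : ContDiff ℝ ∞ b) (hx : ContDiff ℝ ∞ x) :
    ContDiff ℝ ∞ (fun t => cons2 (a t) (b t) (x t)) := by
  rw [contDiff_euclidean]
  intro i
  refine Fin.cases ?_ (fun i => Fin.cases ?_ (fun i => ?_) i) i
  · simpa [cons2] using ha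
  · simpa [cons2] using hb
  · simpa [cons2] using (contDiff_euclidean.1 hx i)

/-- The step. -/
theorem nondeg_step {d : ℕ} {δ : ℝ → E d} (hδs : ContDiff ℝ ∞ δ) (hδ : Nondeg δ)
    {u u' : ℝ → E d} (hu : ContDiff ℝ ∞ u) (hu1 : ∀ t, HasDerivAt u (u' t) t)
    (hu2 : ∀ t, HasDerivAt u' (δ (2 * t) - u t) t) {ε : ℝ} (hε : ε ≠ 0) :
    Nondeg (fun t => cons2 (Real.cos t) (Real.sin t) (ε • u t)) := by
  set γ : ℝ → E (d + 2) := fun t => cons2 (Real.cos t) (Real.sin t) (ε • u t) with hγ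
  have hγs : ContDiff ℝ ∞ γ :=
    smooth_cons2 Real.contDiff_cos Real.contDiff_sin (hu.const_smul ε)
  rw [nondeg_iff] at hδ ⊢
  intro t w hw
  -- the height function
  set F : ℝ → ℝ := fun t => ⟪w, γ t⟫ with hF
  have hFs : ContDiff ℝ ∞ F := contDiff_const.inner ℝ hγs
  have hFi : ∀ j, iteratedDeriv j F = fun t => ⟪w, iteratedDeriv j γ t⟫ := fun j =>
    iteratedDeriv_clm (innerSL ℝ w) hγs j
  have hF0 : ∀ j, j < d + 2 → iteratedDeriv (j + 1) F t = 0 := by
    intro j hj
    rw [hFi]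
    exact hw j hj
  have hFe : F = fun t => w 0 * Real.cos t + w 1 * Real.sin t + ε * ⟪tail2 w, u t⟫ := by
    funext t
    simp only [hF, hγ]
    rw [inner_cons2, inner_smul_right]
  have hF1 : ∀ t, HasDerivAt F (w 0 * (-Real.sin t) + w 1 * Real.cos t +
      ε * ⟪tail2 w, u' t⟫) t := by
    intro t
    rw [hFe]
    have h3 : HasDerivAt (fun t => ⟪tail2 w, u t⟫) ⟪tail2 w, u' t⟫ t :=
      (innerSL ℝ (tail2 w)).hasFDerivAt.comp_hasDerivAt t (hu1 t)
    exact (((Real.hasDerivAt_cos t).const_mul (w 0)).add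
      ((Real.hasDerivAt_sin t).const_mul (w 1))).add (h3.const_mul ε)
  have hF2 : ∀ t, HasDerivAt (fun t => w 0 * (-Real.sin t) + w 1 * Real.cos t +
      ε * ⟪tail2 w, u' t⟫) (w 0 * (-Real.cos t) + w 1 * (-Real.sin t) +
      ε * ⟪tail2 w, δ (2 * t) - u t⟫) t := by
    intro t
    have h3 : HasDerivAt (fun t => ⟪tail2 w, u' t⟫) ⟪tail2 w, δ (2 * t) - u t⟫ t :=
      (innerSL ℝ (tail2 w)).hasFDerivAt.comp_hasDerivAt t (hu2 t)
    exact (((Real.hasDerivAt_sin t).neg.const_mul (w 0)).add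
      ((Real.hasDerivAt_cos t).const_mul (w 1))).add (h3.const_mul ε)
  have hdF : deriv F = fun t => w 0 * (-Real.sin t) + w 1 * Real.cos t +
      ε * ⟪tail2 w, u' t⟫ := funext fun t => (hF1 t).deriv
  have hddF : iteratedDeriv 2 F = fun t => w 0 * (-Real.cos t) + w 1 * (-Real.sin t) +
      ε * ⟪tail2 w, δ (2 * t) - u t⟫ := by
    rw [iteratedDeriv_succ, iteratedDeriv_one, hdF]
    exact funext fun t => (hF2 t).deriv
  have hK : (fun s => iteratedDeriv 2 F s + F s) = fun s => ⟪ε • tail2 w, δ (2 * s)⟫ := by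
    funext s
    rw [hddF, hFe]
    simp only [inner_sub_right, real_inner_smul_left]
    ring
  have hδ2 : ContDiff ℝ ∞ (fun s : ℝ => δ (2 * s)) := by fun_prop
  have htail : ε • tail2 w = 0 := by
    apply hδ (2 * t)
    intro i hi
    have e1 : iteratedDeriv (i + 1) (fun s => iteratedDeriv 2 F s + F s) t = 0 := by
      have hs2 : ContDiff ℝ ∞ (iteratedDeriv 2 F) := smooth_iteratedDeriv hFs 2
      have : (fun s => iteratedDeriv 2 F s + F s) = iteratedDeriv 2 F + F := rfl
      rw [this, iteratedDeriv_add (hs2.contDiffAt.of_le (by exact_mod_cast le_top))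
        (hFs.contDiffAt.of_le (by exact_mod_cast le_top))]
      have e3 : iteratedDeriv (i + 1) (iteratedDeriv 2 F) t = iteratedDeriv (i + 2 + 1) F t := by
        rw [iteratedDeriv_eq_iterate, iteratedDeriv_eq_iterate, iteratedDeriv_eq_iterate,
          ← Function.iterate_add_apply]
      rw [e3, hF0 (i + 2) (by omega), hF0 i (by omega), add_zero]
    have e4 : iteratedDeriv (i + 1) (fun s => ⟪ε • tail2 w, δ (2 * s)⟫) =
        fun s => ⟪ε • tail2 w, iteratedDeriv (i + 1) (fun s : ℝ => δ (2 * s)) s⟫ :=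
      iteratedDeriv_clm (innerSL ℝ (ε • tail2 w)) hδ2 (i + 1)
    rw [hK, e4] at e1
    have e2 : iteratedDeriv (i + 1) (fun s : ℝ => δ (2 * s)) t =
        (2 : ℝ) ^ (i + 1) • iteratedDeriv (i + 1) δ (2 * t) := by
      have := iteratedDeriv_comp_const_smul (n := i + 1) (f := δ)
        (hδs.of_le (by exact_mod_cast le_top)) (2 : ℝ)
      exact congrFun this t
    simp only [e2] at e1
    rw [inner_smul_right] at e1
    rcases mul_eq_zero.1 e1 with h | h
    · exact absurd h (by positivity)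
    · exact h
  have htail0 : tail2 w = 0 := by
    rcases smul_eq_zero.1 htail with h | h
    · exact absurd h hε
    · exact h
  have g1 := hF0 0 (by omega)
  have g2 := hF0 1 (by omega)
  rw [zero_add, iteratedDeriv_one, hdF] at g1
  rw [show 1 + 1 = 2 from rfl, hddF] at g2
  simp only [htail0, inner_zero_left, mul_zero, add_zero] at g1 g2
  have hsc := Real.sin_sq_add_cos_sq t
  have hw0 : w 0 = 0 := by
    linear_combination (-Real.sin t) * g1 + (-Real.cos t) * g2 - w 0 * hsc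
  have hw1 : w 1 = 0 := by
    linear_combination (Real.cos t) * g1 + (-Real.sin t) * g2 - w 1 * hsc
  ext i
  refine Fin.cases ?_ (fun i => Fin.cases ?_ (fun i => ?_) i) i
  · simpa using hw0
  · simpa using hw1
  · have := congrArg (fun z : E d => z i) htail0
    simpa [tail2] using this

end Pool.Agent.Q140.ND
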